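import Mathlib

set_option autoImplicit false

namespace Pool.Agent.H.MP_a221c1_pr

def pack (f : ℕ → ℕ) : ℕ → ℕ := fun n => Nat.rec 0 (fun k T => T + (f k <<< (64 * k))) n

def get (T s : ℕ) : ℕ := (T >>> (64 * s)) % 2 ^ 64

theorem get_lt (T s : ℕ) : get T s < 2 ^ 64 := Nat.mod_lt _ (by norm_num)

theorem get_shr (T p s : ℕ) : get (T >>> (64 * p)) s = get T (s + p) := by
  rw [get, get, ← Nat.shiftRight_add]; congr 2; ring

theorem get_and (T M s : ℕ) : get (T &&& M) s = get T s &&& get M s := by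
  rw [get, get, get, Nat.shiftRight_and_distrib, Nat.and_mod_two_pow]

theorem get_shl (T p s : ℕ) : get (T <<< (64 * p)) s = if s < p then 0 else get T (s - p) := by
  unfold get
  rw [Nat.shiftLeft_eq, Nat.shiftRight_eq_div_pow, Nat.shiftRight_eq_div_pow]
  split_ifs with h
  · obtain ⟨k, rfl⟩ := Nat.exists_eq_add_of_lt h
    have : 2 ^ (64 * (s + k + 1)) = 2 ^ (64 * k) * 2 ^ 64 * 2 ^ (64 * s) := by
      rw [← pow_add, ← pow_add]; congr 1; ring
    rw [this, ← mul_assoc, Nat.mul_div_cancel _ (by positivity), ← mul_assoc, Nat.mul_mod_left]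
  · obtain ⟨k, rfl⟩ := Nat.exists_eq_add_of_le (not_lt.mp h)
    have : 2 ^ (64 * (p + k)) = 2 ^ (64 * k) * 2 ^ (64 * p) := by
      rw [← pow_add]; congr 1; ring
    rw [this, Nat.mul_div_mul_right _ _ (by positivity), Nat.add_sub_cancel_left]

theorem get_add (s : ℕ) : ∀ T U : ℕ, (∀ r, get T r + get U r < 2 ^ 64) →
    get (T + U) s = get T s + get U s := by
  induction s with
  | zero =>
    intro T U h
    have := h 0
    simp only [get, mul_zero, Nat.shiftRight_zero] at this ⊢
    omega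
  | succ s ih =>
    intro T U h
    have h0 := h 0
    simp only [get, mul_zero, Nat.shiftRight_zero] at h0
    rw [← get_shr, ← get_shr, ← get_shr, ← ih _ _ (fun r => by rw [get_shr, get_shr]; exact h _)]
    congr 1
    simp only [Nat.shiftRight_eq_div_pow, mul_one]
    omega

theorem get_pack (f : ℕ → ℕ) (hf : ∀ s, f s < 2 ^ 64) (n s : ℕ) :
    get (pack f n) s = if s < n then f s else 0 := by
  induction n generalizing s with
  | zero => simp [pack, get]
  | succ n ih =>
    have e : pack f (n + 1) = pack f n + (f n <<< (64 * n)) := rfl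
    have e2 : ∀ r, get (f n <<< (64 * n)) r = if r = n then f n else 0 := by
      intro r
      rw [get_shl]
      have := hf n
      split_ifs with h1 h2 h2
      · omega
      · rfl
      · simp [h2, get]; omega
      · obtain ⟨k, hk⟩ : ∃ k, r - n = k + 1 := ⟨r - n - 1, by omega⟩
        rw [hk, ← get_shr, Nat.shiftRight_eq_div_pow, Nat.div_eq_of_lt (by simpa using this)]
        simp [get]
    rw [e, get_add, ih, e2]
    · split_ifs <;> first | omega | simp_all
    · intro r
      rw [ih, e2]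
      have := hf r
      have := hf n
      split_ifs <;> omega

def Bd (T X : ℕ) : Prop := ∀ s, get T s ≤ X

theorem Bd.get_add {T U X Y : ℕ} (h1 : Bd T X) (h2 : Bd U Y) (h : X + Y < 2 ^ 64) (s : ℕ) :
    get (T + U) s = get T s + get U s :=
  Pool.Agent.H.MP_a221c1_pr.get_add s T U fun r => (add_le_add (h1 r) (h2 r)).trans_lt h

theorem Bd.add {T U X Y : ℕ} (h1 : Bd T X) (h2 : Bd U Y) (h : X + Y < 2 ^ 64) :
    Bd (T + U) (X + Y) := fun s => by
  rw [h1.get_add h2 h]; exact add_le_add (h1 s) (h2 s)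

theorem Bd.shr {T X : ℕ} (h : Bd T X) (p : ℕ) : Bd (T >>> (64 * p)) X := fun s => by
  rw [get_shr]; exact h _

theorem Bd.shl {T X : ℕ} (h : Bd T X) (p : ℕ) : Bd (T <<< (64 * p)) X := fun s => by
  rw [get_shl]; split_ifs
  · exact Nat.zero_le _
  · exact h _

theorem Bd.and {T X : ℕ} (h : Bd T X) (M : ℕ) : Bd (T &&& M) X := fun s => by
  rw [get_and]; exact Nat.and_le_left.trans (h s)

def sumN (f : ℕ → ℕ) : ℕ → ℕ := fun n => Nat.rec 0 (fun k T => T + f k) n

theorem sumN_eq (f : ℕ → ℕ) (n : ℕ) : sumN f n = ∑ k ∈ Finset.range n, f k := by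
  induction n with
  | zero => rfl
  | succ n ih => rw [Finset.sum_range_succ, ← ih]; rfl

theorem get_sumN (f : ℕ → ℕ) (X : ℕ) (hf : ∀ k, Bd (f k) X) (n : ℕ) (hn : n * X < 2 ^ 64) :
    Bd (sumN f n) (n * X) ∧ ∀ s, get (sumN f n) s = ∑ k ∈ Finset.range n, get (f k) s := by
  induction n with
  | zero => exact ⟨fun s => by simp [sumN, get], fun s => by simp [sumN, get]⟩
  | succ n ih =>
    have e : sumN f (n + 1) = sumN f n + f n := rfl
    rw [add_mul, one_mul] at hn ⊢
    obtain ⟨h1, h2⟩ := ih (by omega)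
    exact ⟨e ▸ h1.add (hf n) hn, fun s => by
      rw [e, h1.get_add (hf n) hn, h2, Finset.sum_range_succ]⟩

def mask (c : ℕ → Bool) : ℕ := pack (fun s => bif c s then 2 ^ 64 - 1 else 0) 2401

theorem get_mask (T : ℕ) (c : ℕ → Bool) (s : ℕ) :
    get (T &&& mask c) s = if s < 2401 ∧ c s = true then get T s else 0 := by
  rw [get_and, mask, get_pack _ (fun s => by cases c s <;> simp)]
  by_cases h : s < 2401
  · cases hc : c s
    · simp [h]
    · simp only [h, if_true, cond_true, and_self]
      rw [Nat.and_two_pow_sub_one_eq_mod, Nat.mod_eq_of_lt (get_lt _ _)]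
  · simp [h]

def axis (T p M : ℕ) : ℕ :=
  sumN (fun x => (sumN (fun y => T >>> (64 * (y * p))) 7 &&& M) <<< (64 * (x * p))) 7

theorem get_axis (T X p : ℕ) (hp : 0 < p) (h : Bd T X) (hX : 49 * X < 2 ^ 64) :
    Bd (axis T p (mask fun s => s / p % 7 == 0)) (49 * X) ∧ ∀ s, s < 2401 →
      get (axis T p (mask fun s => s / p % 7 == 0)) s
        = ∑ y ∈ Finset.range 7, get T (s - s / p % 7 * p + y * p) := by
  obtain ⟨a1, a2⟩ := get_sumN (fun y => T >>> (64 * (y * p))) X (fun k => h.shr _) 7 (by omega)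
  obtain ⟨b1, b2⟩ := get_sumN (fun x => (sumN (fun y => T >>> (64 * (y * p))) 7 &&&
    (mask fun s => s / p % 7 == 0)) <<< (64 * (x * p))) (7 * X) (fun k => (a1.and _).shl _) 7
    (by omega)
  refine ⟨fun s => (b1 s).trans (by omega), fun s hs => ?_⟩
  have hle : s / p % 7 * p ≤ s :=
    (Nat.mul_le_mul_right p (Nat.mod_le _ _)).trans (Nat.div_mul_le_self s p)
  rw [axis, b2, Finset.sum_eq_single (s / p % 7)]
  · rw [get_shl, if_neg (not_lt.mpr hle), get_mask, if_pos, a2]
    · exact Finset.sum_congr rfl fun y _ => get_shr _ _ _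
    · refine ⟨by omega, ?_⟩
      rw [beq_iff_eq, mul_comm, Nat.sub_mul_div]
      omega
  · intro x hx hne
    rw [Finset.mem_range] at hx
    rw [get_shl]
    split_ifs with h1
    · rfl
    · rw [get_mask, if_neg]
      rintro ⟨-, h2⟩
      rw [beq_iff_eq, mul_comm, Nat.sub_mul_div] at h2
      have : x ≤ s / p := (Nat.le_div_iff_mul_le hp).mpr (not_lt.mp h1)
      omega
  · intro h1
    exact absurd (Finset.mem_range.mpr (Nat.mod_lt _ (by norm_num))) h1

def okN (s : ℕ) : Bool :=
  s % 7 != s / 7 % 7 && s / 7 % 7 != s / 49 % 7 && s / 49 % 7 != s / 343 % 7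

def stepM (m0 m1 m2 m3 mP mac mbd T : ℕ) : ℕ :=
  ((axis T 1 m0 + axis T 7 m1 + axis T 49 m2 + axis T 343 m3) &&& mP)
    + T + T + T + T + (T &&& mac) + (T &&& mbd)

def stepT : ℕ → ℕ := stepM (mask fun s => s / 1 % 7 == 0) (mask fun s => s / 7 % 7 == 0)
  (mask fun s => s / 49 % 7 == 0) (mask fun s => s / 343 % 7 == 0) (mask okN)
  (mask fun s => s % 7 != s / 49 % 7) (mask fun s => s / 7 % 7 != s / 343 % 7)

theorem get_step (T X : ℕ) (h : Bd T X) (hX : 202 * X < 2 ^ 64) :
    Bd (stepT T) (202 * X) ∧ ∀ s, get (stepT T) s =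
      (if s < 2401 ∧ okN s = true then
        ∑ y ∈ Finset.range 7, get T (s - s / 1 % 7 * 1 + y * 1)
        + ∑ y ∈ Finset.range 7, get T (s - s / 7 % 7 * 7 + y * 7)
        + ∑ y ∈ Finset.range 7, get T (s - s / 49 % 7 * 49 + y * 49)
        + ∑ y ∈ Finset.range 7, get T (s - s / 343 % 7 * 343 + y * 343) else 0)
      + 4 * get T s + (if s < 2401 ∧ (s % 7 != s / 49 % 7) = true then get T s else 0)
      + (if s < 2401 ∧ (s / 7 % 7 != s / 343 % 7) = true then get T s else 0) := by
  obtain ⟨a0, b0⟩ := get_axis T X 1 (by norm_num) h (by omega)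
  obtain ⟨a1, b1⟩ := get_axis T X 7 (by norm_num) h (by omega)
  obtain ⟨a2, b2⟩ := get_axis T X 49 (by norm_num) h (by omega)
  obtain ⟨a3, b3⟩ := get_axis T X 343 (by norm_num) h (by omega)
  have c1 := a0.add a1 (by omega)
  have c2 := c1.add a2 (by omega)
  have c3 := (c2.add a3 (by omega)).and (mask okN)
  have c4 := c3.add h (by omega)
  have c5 := c4.add h (by omega)
  have c6 := c5.add h (by omega)
  have c7 := c6.add h (by omega)
  have c8 := c7.add (h.and (mask fun s => s % 7 != s / 49 % 7)) (by omega)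
  have c9 := c8.add (h.and (mask fun s => s / 7 % 7 != s / 343 % 7)) (by omega)
  refine ⟨fun s => (c9 s).trans (by omega), fun s => ?_⟩
  rw [stepT, stepM, c8.get_add (h.and _) (by omega), c7.get_add (h.and _) (by omega),
    c6.get_add h (by omega), c5.get_add h (by omega), c4.get_add h (by omega),
    c3.get_add h (by omega), get_mask, get_mask, get_mask, c2.get_add a3 (by omega),
    c1.get_add a2 (by omega), a0.get_add a1 (by omega)]
  by_cases hs : s < 2401
  · rw [b0 s hs, b1 s hs, b2 s hs, b3 s hs]; ring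
  · simp [hs]; ring

def force (T : ℕ) (k : ℕ → ℕ) : ℕ := Nat.rec (k 0) (fun n _ => k (n + 1)) T

theorem force_eq (T : ℕ) (k : ℕ → ℕ) : force T k = k T := by cases T <;> rfl

def iter (T : ℕ) : ℕ → ℕ := fun n => Nat.rec T (fun _ U => force U stepT) n

theorem iter_succ (T n : ℕ) : iter T (n + 1) = stepT (iter T n) := force_eq _ _

def dev (T : ℕ) : ℕ := sumN (fun s => bif okN s then
  (1512 * get T s - 377801998336) + (377801998336 - 1512 * get T s) else 0) 2401

def chk (s0 : ℕ) : Bool :=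
  Nat.ble (force (iter (1 <<< (64 * s0)) 8) dev * 1000) (734 * 1512 * 377801998336)

theorem c1 : chk 350 = true := by decide +kernel
theorem c2 : chk 693 = true := by decide +kernel
theorem c3 : chk 105 = true := by decide +kernel
theorem c4 : chk 448 = true := by decide +kernel
theorem c5 : chk 1134 = true := by decide +kernel

theorem card_ok : sumN (fun s => bif okN s then 1 else 0) 2401 = 1512 := by decide +kernel

end Pool.Agent.H.MP_a221c1_pr
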