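import Mathlib

set_option autoImplicit false
open Classical

namespace Pool.Agent.H.MP_a221c1_pr

variable {V : Type} [Fintype V] [DecidableEq V]

/-- proper colourings of `G` with `q` colours -/
def Col (G : SimpleGraph V) (q : ℕ) : Type := {σ : V → Fin q // ∀ u v, G.Adj u v → σ u ≠ σ v}

noncomputable instance (G : SimpleGraph V) (q : ℕ) : Fintype (Col G q) := Subtype.fintype _

noncomputable instance (G : SimpleGraph V) (q : ℕ) : DecidableEq (Col G q) := Classical.decEq _

/-- recolour `v` with `c` if the result is proper, otherwise stay -/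
noncomputable def move {G : SimpleGraph V} {q : ℕ} (σ : Col G q) (v : V) (c : Fin q) : Col G q :=
  if h : ∀ a b, G.Adj a b → Function.update σ.1 v c a ≠ Function.update σ.1 v c b
  then ⟨Function.update σ.1 v c, h⟩ else σ

/-- transition matrix of the Glauber dynamics -/
noncomputable def glauber (G : SimpleGraph V) (q : ℕ) : Matrix (Col G q) (Col G q) ℝ :=
  fun σ τ => ((Finset.univ.filter fun x : V × Fin q => move σ x.1 x.2 = τ).card : ℝ)
    / (Fintype.card V * q)

/-- after `t` steps, from every start, total variation distance to uniform is at most `1/e` -/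
def Mixed (G : SimpleGraph V) (q t : ℕ) : Prop :=
  ∀ σ : Col G q, (1 / 2 : ℝ) * ∑ τ, |(glauber G q ^ t) σ τ - 1 / Fintype.card (Col G q)|
    ≤ Real.exp (-1)

end Pool.Agent.H.MP_a221c1_pr
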