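import Pool.Agent.H.MP_a221c1_pr.Defs

set_option autoImplicit false
open Classical

namespace Pool.Agent.H.MP_a221c1_pr

variable {V : Type} [Fintype V] [DecidableEq V] {G : SimpleGraph V} {q : ℕ}

theorem gl_sum (σ : Col G q) (f : Col G q → ℝ) :
    ∑ τ, glauber G q σ τ * f τ = (∑ v, ∑ c, f (move σ v c)) / (Fintype.card V * q) := by
  rw [← Fintype.sum_prod_type', ← Finset.sum_fiberwise (g := fun x : V × Fin q => move σ x.1 x.2),
    Finset.sum_div]
  refine Finset.sum_congr rfl fun τ _ => ?_
  rw [Finset.sum_congr rfl (g := fun _ => f τ) fun x hx => by rw [(Finset.mem_filter.mp hx).2]]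
  simp only [glauber, Finset.sum_const, nsmul_eq_mul]
  ring

theorem pow_back (t : ℕ) (σ ρ : Col G q) : (glauber G q ^ (t + 1)) σ ρ
    = (∑ v, ∑ c, (glauber G q ^ t) (move σ v c) ρ) / (Fintype.card V * q) := by
  rw [pow_succ', Matrix.mul_apply, gl_sum]

theorem pow_nonneg' (t : ℕ) (σ ρ : Col G q) : 0 ≤ (glauber G q ^ t) σ ρ := by
  induction t generalizing σ with
  | zero => rw [pow_zero, Matrix.one_apply]; split_ifs <;> norm_num
  | succ t ih =>
    rw [pow_back]
    exact div_nonneg (Finset.sum_nonneg fun v _ => Finset.sum_nonneg fun c _ => ih _) (by positivity)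

theorem pow_exp (t : ℕ) (σ : Col G q) (f : Col G q → ℝ) : ∑ ρ, (glauber G q ^ (t + 1)) σ ρ * f ρ
    = (∑ v, ∑ c, ∑ ρ, (glauber G q ^ t) (move σ v c) ρ * f ρ) / (Fintype.card V * q) := by
  simp only [pow_back, div_mul_eq_mul_div, Finset.sum_mul]
  rw [← Finset.sum_div, Finset.sum_comm]
  congr 1
  exact Finset.sum_congr rfl fun v _ => Finset.sum_comm

theorem pow_row [Nonempty V] (hq : 0 < q) (t : ℕ) (σ : Col G q) : ∑ ρ, (glauber G q ^ t) σ ρ = 1 := by
  induction t generalizing σ with
  | zero => simp [Matrix.one_apply]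
  | succ t ih =>
    have := pow_exp t σ fun _ => 1
    simp only [mul_one, ih, Finset.sum_const, Finset.card_univ, Fintype.card_fin, nsmul_eq_mul] at this
    rw [this, div_self]
    have := Fintype.card_pos (α := V)
    positivity

theorem move_back {σ τ : Col G q} {v : V} {c : Fin q} (h : move σ v c = τ) (hne : σ ≠ τ) :
    move τ v (σ.1 v) = σ ∧ c = τ.1 v := by
  unfold move at h
  split_ifs at h with h1
  · subst h
    have e : Function.update (Function.update σ.1 v c) v (σ.1 v) = σ.1 := by simp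
    refine ⟨?_, by simp⟩
    unfold move
    rw [dif_pos (by rw [e]; exact σ.2)]
    exact Subtype.ext e
  · exact absurd h hne

theorem gl_symm (σ τ : Col G q) : glauber G q σ τ = glauber G q τ σ := by
  by_cases h : σ = τ
  · rw [h]
  unfold glauber
  congr 2
  refine Finset.card_bij' (fun x _ => (x.1, σ.1 x.1)) (fun x _ => (x.1, τ.1 x.1)) ?_ ?_ ?_ ?_
  · intro x hx
    simp only [Finset.mem_filter, Finset.mem_univ, true_and] at hx ⊢
    exact (move_back hx h).1
  · intro x hx
    simp only [Finset.mem_filter, Finset.mem_univ, true_and] at hx ⊢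
    exact (move_back hx (Ne.symm h)).1
  · intro x hx
    simp only [Finset.mem_filter, Finset.mem_univ, true_and] at hx
    exact Prod.ext rfl (move_back hx h).2.symm
  · intro x hx
    simp only [Finset.mem_filter, Finset.mem_univ, true_and] at hx
    exact Prod.ext rfl (move_back hx (Ne.symm h)).2.symm

theorem pow_symm (t : ℕ) (σ τ : Col G q) : (glauber G q ^ t) σ τ = (glauber G q ^ t) τ σ := by
  have h : (glauber G q).IsSymm := Matrix.IsSymm.ext fun i j => gl_symm j i
  exact (h.pow t).apply τ σ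

/-- action of colour permutations -/
def perm (g : Equiv.Perm (Fin q)) : Col G q ≃ Col G q where
  toFun σ := ⟨g ∘ σ.1, fun u v h e => σ.2 u v h (g.injective e)⟩
  invFun σ := ⟨g.symm ∘ σ.1, fun u v h e => σ.2 u v h (g.symm.injective e)⟩
  left_inv σ := Subtype.ext (by funext v; simp)
  right_inv σ := Subtype.ext (by funext v; simp)

theorem move_perm (g : Equiv.Perm (Fin q)) (σ : Col G q) (v : V) (c : Fin q) :
    move (perm g σ) v (g c) = perm g (move σ v c) := by
  have e : Function.update (perm g σ).1 v (g c) = g ∘ Function.update σ.1 v c := by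
    rw [Function.comp_update]; rfl
  unfold move
  by_cases h : ∀ a b, G.Adj a b → Function.update σ.1 v c a ≠ Function.update σ.1 v c b
  · rw [dif_pos h, dif_pos (by rw [e]; exact fun a b hab e => h a b hab (g.injective e))]
    exact Subtype.ext e
  · rw [dif_neg h, dif_neg]
    rw [e]
    exact fun h' => h fun a b hab e => h' a b hab (congrArg g e)

theorem pow_perm (g : Equiv.Perm (Fin q)) (t : ℕ) (σ ρ : Col G q) :
    (glauber G q ^ t) (perm g σ) (perm g ρ) = (glauber G q ^ t) σ ρ := by
  induction t generalizing σ with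
  | zero => simp [Matrix.one_apply]
  | succ t ih =>
    rw [pow_back, pow_back]
    congr 1
    refine Finset.sum_congr rfl fun v _ => ?_
    rw [← Equiv.sum_comp g]
    exact Finset.sum_congr rfl fun c _ => by rw [move_perm, ih]

noncomputable def tv (G : SimpleGraph V) (q t : ℕ) (σ : Col G q) : ℝ :=
  ∑ τ, |(glauber G q ^ t) σ τ - 1 / Fintype.card (Col G q)|

theorem tv_perm (g : Equiv.Perm (Fin q)) (t : ℕ) (σ : Col G q) :
    tv G q t (perm g σ) = tv G q t σ := by
  unfold tv
  rw [← Equiv.sum_comp (perm g)]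
  simp only [pow_perm]

theorem exists_perm (σ ρ : V → Fin q) (h : ∀ u v, σ u = σ v ↔ ρ u = ρ v) :
    ∃ g : Equiv.Perm (Fin q), g ∘ ρ = σ := by
  obtain ⟨g, hg⟩ := Equiv.Perm.exists_extending_pair (α := Set.range ρ) (f := Subtype.val)
    (g := fun x => σ (Set.rangeSplitting ρ x)) Subtype.val_injective (by
      intro x y hxy
      have := (h _ _).mp hxy
      rw [Set.apply_rangeSplitting ρ, Set.apply_rangeSplitting ρ] at this
      exact Subtype.ext this)
  refine ⟨g, funext fun v => ?_⟩
  rw [Function.comp_apply, hg ⟨ρ v, Set.mem_range_self v⟩, h, Set.apply_rangeSplitting ρ]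

theorem doeblin [Nonempty V] (hq : 0 < q) (k : ℕ) (ε : ℝ) (hε : 0 < ε)
    (h : ∀ σ τ : Col G q, ε ≤ (glauber G q ^ k) σ τ) : ∃ t, Mixed G q t := by
  by_cases hne : IsEmpty (Col G q)
  · exact ⟨0, fun σ => hne.elim σ⟩
  rw [not_isEmpty_iff] at hne
  set N : ℝ := (Fintype.card (Col G q) : ℝ) with hN
  have hN0 : 0 < N := by rw [hN]; exact_mod_cast Fintype.card_pos
  have h1 : 0 ≤ 1 - N * ε := by
    obtain ⟨σ⟩ := hne
    have := Finset.sum_le_sum fun τ (_ : τ ∈ Finset.univ) => h σ τ
    rw [pow_row hq, Finset.sum_const, Finset.card_univ, nsmul_eq_mul] at this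
    linarith
  have step : ∀ t σ, tv G q (t + k) σ ≤ (1 - N * ε) * tv G q t σ := by
    intro t σ
    have z : ∑ ρ, ((glauber G q ^ t) σ ρ - 1 / N) = 0 := by
      rw [Finset.sum_sub_distrib, pow_row hq, Finset.sum_const, Finset.card_univ, nsmul_eq_mul]
      field_simp; ring
    have e : ∀ τ, (glauber G q ^ (t + k)) σ τ - 1 / N
        = ∑ ρ, ((glauber G q ^ t) σ ρ - 1 / N) * ((glauber G q ^ k) ρ τ - ε) := by
      intro τ
      have c : ∑ ρ, (glauber G q ^ k) ρ τ = 1 := by
        rw [← pow_row hq k τ]; exact Finset.sum_congr rfl fun ρ _ => pow_symm _ _ _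
      simp only [mul_sub, Finset.sum_sub_distrib]
      rw [← Finset.sum_mul, z, pow_add, Matrix.mul_apply]
      simp only [sub_mul, Finset.sum_sub_distrib]
      rw [← Finset.mul_sum, c]; ring
    unfold tv
    rw [← hN]
    calc ∑ τ, |(glauber G q ^ (t + k)) σ τ - 1 / N|
        ≤ ∑ τ, ∑ ρ, |(glauber G q ^ t) σ ρ - 1 / N| * ((glauber G q ^ k) ρ τ - ε) := by
          refine Finset.sum_le_sum fun τ _ => ?_
          rw [e]
          refine (Finset.abs_sum_le_sum_abs _ _).trans (Finset.sum_le_sum fun ρ _ => ?_)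
          rw [abs_mul, abs_of_nonneg (sub_nonneg.mpr (h ρ τ))]
      _ = _ := by
          rw [Finset.sum_comm, Finset.mul_sum]
          refine Finset.sum_congr rfl fun ρ _ => ?_
          rw [← Finset.mul_sum, Finset.sum_sub_distrib, pow_row hq, Finset.sum_const,
            Finset.card_univ, nsmul_eq_mul]; ring
  have base : ∀ σ, tv G q 0 σ ≤ 2 := by
    intro σ
    unfold tv
    rw [← hN]
    calc _ ≤ ∑ τ, ((glauber G q ^ 0) σ τ + 1 / N) := Finset.sum_le_sum fun τ _ => by
          have := pow_nonneg' 0 σ τ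
          have : 0 < 1 / N := by positivity
          rw [abs_le]; constructor <;> linarith
      _ = 2 := by
          rw [Finset.sum_add_distrib, pow_row hq, Finset.sum_const, Finset.card_univ, nsmul_eq_mul]
          field_simp; ring
  have it : ∀ m σ, tv G q (m * k) σ ≤ (1 - N * ε) ^ m * 2 := by
    intro m σ
    induction m with
    | zero => simpa using base σ
    | succ m ih =>
      rw [add_mul, one_mul, pow_succ', mul_assoc]
      exact (step _ σ).trans (mul_le_mul_of_nonneg_left ih h1)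
  obtain ⟨m, hm⟩ := exists_pow_lt_of_lt_one (Real.exp_pos (-1)) (y := 1 - N * ε)
    (by have := mul_pos hN0 hε; linarith)
  refine ⟨m * k, fun σ => ?_⟩
  have := it m σ
  unfold tv at this
  linarith

theorem pow_step_ge (t : ℕ) (σ ρ : Col G q) (v : V) (c : Fin q) :
    (glauber G q ^ t) (move σ v c) ρ / (Fintype.card V * q) ≤ (glauber G q ^ (t + 1)) σ ρ := by
  rw [pow_back]
  refine div_le_div_of_nonneg_right ?_ (by positivity)
  have h1 := Finset.single_le_sum (f := fun c => (glauber G q ^ t) (move σ v c) ρ)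
    (fun c _ => pow_nonneg' t _ _) (Finset.mem_univ c)
  have h2 := Finset.single_le_sum (f := fun v => ∑ c, (glauber G q ^ t) (move σ v c) ρ)
    (fun v _ => Finset.sum_nonneg fun c _ => pow_nonneg' t _ _) (Finset.mem_univ v)
  exact h1.trans h2

theorem tv_ge [Nonempty V] (hq : 0 < q) (t : ℕ) (σ : Col G q) (A : Finset (Col G q)) :
    ∑ τ ∈ A, (glauber G q ^ t) σ τ - A.card / Fintype.card (Col G q) ≤ 1 / 2 * tv G q t σ := by
  set N : ℝ := (Fintype.card (Col G q) : ℝ) with hN
  have : Nonempty (Col G q) := ⟨σ⟩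
  have hN0 : 0 < N := by rw [hN]; exact_mod_cast Fintype.card_pos
  have z : ∑ ρ, ((glauber G q ^ t) σ ρ - 1 / N) = 0 := by
    rw [Finset.sum_sub_distrib, pow_row hq, Finset.sum_const, Finset.card_univ, nsmul_eq_mul]
    field_simp; ring
  unfold tv
  rw [← hN, ← Finset.sum_add_sum_compl A] at *
  have h1 : ∑ τ ∈ A, ((glauber G q ^ t) σ τ - 1 / N) ≤ ∑ τ ∈ A, |(glauber G q ^ t) σ τ - 1 / N| :=
    Finset.sum_le_sum fun τ _ => le_abs_self _
  have h2 : -∑ τ ∈ Aᶜ, ((glauber G q ^ t) σ τ - 1 / N)
      ≤ ∑ τ ∈ Aᶜ, |(glauber G q ^ t) σ τ - 1 / N| := by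
    rw [← Finset.sum_neg_distrib]
    exact Finset.sum_le_sum fun τ _ => neg_le_abs _
  have h3 : ∑ τ ∈ A, ((glauber G q ^ t) σ τ - 1 / N)
      = ∑ τ ∈ A, (glauber G q ^ t) σ τ - A.card / N := by
    rw [Finset.sum_sub_distrib, Finset.sum_const, nsmul_eq_mul]; ring
  linarith

theorem card_fix (hq : 0 < q) (v : V) (a : Fin q) :
    ((Finset.univ.filter fun τ : Col G q => τ.1 v = a).card : ℝ) = Fintype.card (Col G q) / q := by
  have h1 : ∀ b : Fin q, (Finset.univ.filter fun τ : Col G q => τ.1 v = b).card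
      = (Finset.univ.filter fun τ : Col G q => τ.1 v = a).card := by
    intro b
    refine Finset.card_equiv (perm (Equiv.swap a b)) fun τ => ?_
    simp only [Finset.mem_filter, Finset.mem_univ, true_and, perm, Equiv.coe_fn_mk,
      Function.comp_apply]
    rw [Equiv.swap_apply_eq_iff, Equiv.swap_apply_left]
  have h2 := Finset.card_eq_sum_card_fiberwise (s := Finset.univ) (t := Finset.univ)
    (f := fun τ : Col G q => τ.1 v) (fun _ _ => Finset.mem_univ _)
  simp only [h1, Finset.sum_const, Finset.card_univ, Fintype.card_fin, smul_eq_mul] at h2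
  rw [h2]; push_cast; field_simp

end Pool.Agent.H.MP_a221c1_pr
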