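import Pool.Agent.H.MP_a221c1_pr.Gen
import Pool.Agent.H.MP_a221c1_pr.Comp

set_option autoImplicit false
open Classical

namespace Pool.Agent.H.MP_a221c1_pr

abbrev P4 : SimpleGraph (Fin 4) := SimpleGraph.pathGraph 4

theorem proper_iff {q : ℕ} (σ : Fin 4 → Fin q) :
    (∀ a b, P4.Adj a b → σ a ≠ σ b) ↔ σ 0 ≠ σ 1 ∧ σ 1 ≠ σ 2 ∧ σ 2 ≠ σ 3 := by
  constructor
  · intro h
    exact ⟨h 0 1 (SimpleGraph.pathGraph_adj.mpr (Or.inl rfl)),
      h 1 2 (SimpleGraph.pathGraph_adj.mpr (Or.inl rfl)),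
      h 2 3 (SimpleGraph.pathGraph_adj.mpr (Or.inl rfl))⟩
  · rintro ⟨h1, h2, h3⟩ a b hab
    rw [SimpleGraph.pathGraph_adj] at hab
    fin_cases a <;> fin_cases b <;> simp at hab <;> first | assumption | (symm; assumption)

theorem move_val {q : ℕ} (σ : Col P4 q) (v : Fin 4) (c : Fin q) (ρ : Fin 4 → Fin q)
    (e : Function.update σ.1 v c = ρ) (h : ρ 0 ≠ ρ 1 ∧ ρ 1 ≠ ρ 2 ∧ ρ 2 ≠ ρ 3) :
    move σ v c = ⟨ρ, (proper_iff ρ).mpr h⟩ := by
  subst e
  unfold move
  rw [dif_pos ((proper_iff _).mpr h)]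

theorem minor {q : ℕ} (hq : 5 ≤ q) (σ τ : Col P4 q) :
    (1 / (4 * q : ℝ)) ^ 6 ≤ (glauber P4 q ^ 6) σ τ := by
  obtain ⟨x, -, hx⟩ := Finset.exists_mem_notMem_of_card_lt_card (t := Finset.univ)
    (s := ({σ.1 0, σ.1 2, τ.1 0, τ.1 2} : Finset (Fin q)))
    (Finset.card_le_four.trans_lt (by simp; omega))
  simp only [Finset.mem_insert, Finset.mem_singleton, not_or] at hx
  obtain ⟨x1, x2, x3, x4⟩ := hx
  obtain ⟨s1, s2, s3⟩ := (proper_iff _).mp σ.2
  obtain ⟨t1, t2, t3⟩ := (proper_iff _).mp τ.2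
  have m1 := move_val σ 1 x ![σ.1 0, x, σ.1 2, σ.1 3] (by funext i; fin_cases i <;> simp)
    ⟨Ne.symm x1, x2, s3⟩
  have m2 := move_val (move σ 1 x) 3 x ![σ.1 0, x, σ.1 2, x]
    (by rw [m1]; funext i; fin_cases i <;> simp) ⟨Ne.symm x1, x2, Ne.symm x2⟩
  have m3 := move_val (move (move σ 1 x) 3 x) 0 (τ.1 0) ![τ.1 0, x, σ.1 2, x]
    (by rw [m2]; funext i; fin_cases i <;> simp) ⟨Ne.symm x3, x2, Ne.symm x2⟩
  have m4 := move_val (move (move (move σ 1 x) 3 x) 0 (τ.1 0)) 2 (τ.1 2) ![τ.1 0, x, τ.1 2, x]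
    (by rw [m3]; funext i; fin_cases i <;> simp) ⟨Ne.symm x3, x4, Ne.symm x4⟩
  have m5 := move_val (move (move (move (move σ 1 x) 3 x) 0 (τ.1 0)) 2 (τ.1 2)) 1 (τ.1 1)
    ![τ.1 0, τ.1 1, τ.1 2, x] (by rw [m4]; funext i; fin_cases i <;> simp) ⟨t1, t2, Ne.symm x4⟩
  have m6 := move_val (move (move (move (move (move σ 1 x) 3 x) 0 (τ.1 0)) 2 (τ.1 2)) 1 (τ.1 1))
    3 (τ.1 3) τ.1 (by rw [m5]; funext i; fin_cases i <;> simp) ⟨t1, t2, t3⟩
  have key : ∀ (t : ℕ) (σ : Col P4 q) v c, (1 / (4 * q : ℝ)) ^ t ≤ (glauber P4 q ^ t) (move σ v c) τ →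
      (1 / (4 * q : ℝ)) ^ (t + 1) ≤ (glauber P4 q ^ (t + 1)) σ τ := by
    intro t σ v c h
    refine le_trans ?_ (pow_step_ge t σ τ v c)
    rw [pow_succ, Fintype.card_fin, mul_one_div]
    exact div_le_div_of_nonneg_right h (by positivity)
  refine key _ _ 1 x (key _ _ 3 x (key _ _ 0 (τ.1 0) (key _ _ 2 (τ.1 2) (key _ _ 1 (τ.1 1)
    (key _ _ 3 (τ.1 3) ?_)))))
  rw [m6, pow_zero, pow_zero]
  exact (Matrix.one_apply_eq τ).ge

theorem mixes {q : ℕ} (hq : 5 ≤ q) : ∃ t, Mixed P4 q t :=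
  doeblin (by omega) 6 _ (by have : (0 : ℝ) < q := by exact_mod_cast (by omega : 0 < q)
                             positivity) (minor hq)

def HH : ℕ → Finset (Fin 4) → ℕ
  | 0, S => if S = ∅ then 0 else 1
  | t + 1, S => ∑ v, HH t (S.erase v)

def hh : ℕ → ℕ → ℕ
  | 0, k => if k = 0 then 0 else 1
  | t + 1, k => k * hh t (k - 1) + (4 - k) * hh t k

theorem HH_eq (t : ℕ) : ∀ S, HH t S = hh t S.card := by
  induction t with
  | zero => intro S; simp [HH, hh]
  | succ t ih =>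
    intro S
    rw [HH, hh, ← Finset.sum_add_sum_compl S]
    congr 1
    · rw [Finset.sum_congr rfl fun v hv => by rw [ih, Finset.card_erase_of_mem hv]]; simp
    · rw [Finset.sum_congr rfl fun v hv => by
        rw [ih, Finset.erase_eq_of_notMem (Finset.mem_compl.mp hv)]]
      simp [Finset.card_compl]

theorem HH_val : ∀ t < 9, 377 * 4 ^ t ≤ 1000 * HH t Finset.univ := by
  simp only [HH_eq, Finset.card_univ, Fintype.card_fin]
  decide +kernel

theorem stay {q : ℕ} (hq : 0 < q) (σ : Col P4 q) (t : ℕ) : ∀ (S : Finset (Fin 4)) (ρ : Col P4 q),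
    (∀ v ∈ S, ρ.1 v = σ.1 v) → (HH t S : ℝ) / 4 ^ t ≤
      ∑ τ, (glauber P4 q ^ t) ρ τ * if ∃ v, τ.1 v = σ.1 v then 1 else 0 := by
  induction t with
  | zero =>
    intro S ρ h
    simp only [HH, pow_zero, Matrix.one_apply, div_one, ite_mul, one_mul, zero_mul,
      Finset.sum_ite_eq, Finset.mem_univ, if_true]
    by_cases hS : S = ∅
    · rw [if_pos hS]; split_ifs <;> norm_num
    · obtain ⟨v, hv⟩ := Finset.nonempty_iff_ne_empty.mpr hS
      rw [if_neg hS, if_pos ⟨v, h v hv⟩]; norm_num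
  | succ t ih =>
    intro S ρ h
    rw [pow_exp, HH, Fintype.card_fin, le_div_iff₀ (by positivity)]
    push_cast
    rw [Finset.sum_div, Finset.sum_mul]
    refine Finset.sum_le_sum fun v _ => ?_
    have : ∀ c ∈ (Finset.univ : Finset (Fin q)), (HH t (S.erase v) : ℝ) / 4 ^ t ≤
        ∑ τ, (glauber P4 q ^ t) (move ρ v c) τ * if ∃ v, τ.1 v = σ.1 v then 1 else 0 := by
      intro c _
      refine ih _ _ fun w hw => ?_
      rw [Finset.mem_erase] at hw
      rw [← h w hw.2]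
      unfold move
      split_ifs
      · exact Function.update_of_ne hw.1 _ _
      · rfl
    refine le_trans (le_of_eq ?_) (Finset.sum_le_sum this)
    rw [Finset.sum_const, Finset.card_univ, Fintype.card_fin, nsmul_eq_mul, pow_succ]
    field_simp

theorem exp_bd : (0.367 : ℝ) < Real.exp (-1) ∧ Real.exp (-1) < 0.368 :=
  ⟨lt_trans (by norm_num) Real.exp_neg_one_gt_d9, lt_trans Real.exp_neg_one_lt_d9 (by norm_num)⟩

theorem not_mixed (q : ℕ) (hq : 500 ≤ q) (t : ℕ) (ht : t < 9) : ¬ Mixed P4 q t := by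
  intro h
  let σ : Col P4 q := ⟨![⟨0, by omega⟩, ⟨1, by omega⟩, ⟨0, by omega⟩, ⟨1, by omega⟩],
    (proper_iff _).mpr (by simp)⟩
  have hq0 : 0 < q := by omega
  have hq1 : (500 : ℝ) ≤ q := by exact_mod_cast hq
  have h1 := tv_ge hq0 t σ (Finset.univ.filter fun τ => ∃ v, τ.1 v = σ.1 v)
  have h2 := stay hq0 σ t Finset.univ σ fun _ _ => rfl
  have h3 : (377 * 4 ^ t : ℝ) ≤ 1000 * HH t Finset.univ := by exact_mod_cast HH_val t ht
  have h4 : (0.377 : ℝ) ≤ (HH t Finset.univ : ℝ) / 4 ^ t := by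
    rw [le_div_iff₀ (by positivity)]; linarith
  simp only [mul_ite, mul_one, mul_zero] at h2
  rw [← Finset.sum_filter] at h2
  have : Nonempty (Col P4 q) := ⟨σ⟩
  have hN0 : (0 : ℝ) < Fintype.card (Col P4 q) := by exact_mod_cast Fintype.card_pos
  have h5 : ((Finset.univ.filter fun τ : Col P4 q => ∃ v, τ.1 v = σ.1 v).card : ℝ)
      ≤ ∑ v : Fin 4, ((Finset.univ.filter fun τ : Col P4 q => τ.1 v = σ.1 v).card : ℝ) := by
    rw [← Nat.cast_sum, Nat.cast_le]
    refine le_trans (Finset.card_le_card ?_) Finset.card_biUnion_le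
    intro τ hτ
    simpa using hτ
  simp only [card_fix hq0, Finset.sum_const, Finset.card_univ, Fintype.card_fin,
    nsmul_eq_mul] at h5
  have h6 : ((Finset.univ.filter fun τ : Col P4 q => ∃ v, τ.1 v = σ.1 v).card : ℝ)
      / Fintype.card (Col P4 q) ≤ 0.008 := by
    rw [div_le_iff₀ hN0]
    have : (Fintype.card (Col P4 q) : ℝ) / q ≤ Fintype.card (Col P4 q) / 500 :=
      div_le_div_of_nonneg_left hN0.le (by norm_num) hq1
    push_cast at h5; linarith
  have h7 := h σ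
  unfold tv at h1
  linarith [exp_bd.2]

def encF (σ : Fin 4 → Fin 7) : ℕ := σ 0 + 7 * σ 1 + 49 * σ 2 + 343 * σ 3

theorem encF_lt (σ : Fin 4 → Fin 7) : encF σ < 2401 := by
  have := (σ 0).2; have := (σ 1).2; have := (σ 2).2; have := (σ 3).2
  unfold encF; omega

theorem encF_dig (σ : Fin 4 → Fin 7) : encF σ % 7 = σ 0 ∧ encF σ / 7 % 7 = σ 1
    ∧ encF σ / 49 % 7 = σ 2 ∧ encF σ / 343 % 7 = σ 3 := by
  have := (σ 0).2; have := (σ 1).2; have := (σ 2).2; have := (σ 3).2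
  unfold encF; omega

theorem okN_enc (σ : Fin 4 → Fin 7) : okN (encF σ) = true ↔ σ 0 ≠ σ 1 ∧ σ 1 ≠ σ 2 ∧ σ 2 ≠ σ 3 := by
  obtain ⟨h0, h1, h2, h3⟩ := encF_dig σ
  simp [okN, h0, h1, h2, h3, Fin.val_inj, and_assoc]

theorem encF_inj : Function.Injective encF := by
  intro σ τ h
  obtain ⟨h0, h1, h2, h3⟩ := encF_dig σ
  obtain ⟨k0, k1, k2, k3⟩ := encF_dig τ
  rw [h] at h0 h1 h2 h3
  funext i
  fin_cases i
  · exact Fin.ext (h0.symm.trans k0)
  · exact Fin.ext (h1.symm.trans k1)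
  · exact Fin.ext (h2.symm.trans k2)
  · exact Fin.ext (h3.symm.trans k3)

theorem sum_enc {M : Type} [AddCommMonoid M] (f : ℕ → M) : ∑ τ : Col P4 7, f (encF τ.1)
    = ∑ s ∈ Finset.range 2401, bif okN s then f s else 0 := by
  simp only [Bool.cond_eq_ite]
  rw [← Finset.sum_filter]
  refine Finset.sum_bij (fun τ _ => encF τ.1) ?_ ?_ ?_ ?_
  · intro τ _
    simp only [Finset.mem_filter, Finset.mem_range]
    exact ⟨encF_lt _, (okN_enc _).mpr ((proper_iff _).mp τ.2)⟩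
  · intro a _ b _ h
    exact Subtype.ext (encF_inj h)
  · intro s hs
    simp only [Finset.mem_filter, Finset.mem_range] at hs
    let σ : Fin 4 → Fin 7 := ![⟨s % 7, by omega⟩, ⟨s / 7 % 7, by omega⟩, ⟨s / 49 % 7, by omega⟩,
      ⟨s / 343 % 7, by omega⟩]
    have e : encF σ = s := by
      have := hs.1
      simp only [encF, σ, Matrix.cons_val_zero, Matrix.cons_val_one, Matrix.cons_val]
      omega
    exact ⟨⟨σ, (proper_iff _).mpr ((okN_enc _).mp (e ▸ hs.2))⟩, Finset.mem_univ _, e⟩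
  · intro _ _; rfl

theorem card7 : Fintype.card (Col P4 7) = 1512 := by
  have := sum_enc (fun _ => (1 : ℕ))
  rw [← sumN_eq, card_ok] at this
  simpa using this

theorem cnt2 (a b : Fin 7) (w : ℝ) :
    ∑ c : Fin 7, (if a ≠ c ∧ c ≠ b then 0 else w) = w + if (a : ℕ) ≠ b then w else 0 := by
  rw [Finset.sum_ite, Finset.sum_const_zero, zero_add, Finset.sum_const]
  have : (Finset.univ.filter fun c : Fin 7 => ¬ (a ≠ c ∧ c ≠ b)) = {a, b} := by
    ext c; simp only [Finset.mem_filter, Finset.mem_univ, true_and, Finset.mem_insert,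
      Finset.mem_singleton]; grind
  rw [this]
  by_cases h : a = b
  · simp [h]
  · rw [Finset.card_pair h, if_pos (fun e => h (Fin.ext e))]; simp; ring

theorem link (ρ : Col P4 7) (t : ℕ) (ht : t ≤ 8) :
    Bd (iter (1 <<< (64 * encF ρ.1)) t) (202 ^ t) ∧
    (∀ s, ¬ (s < 2401 ∧ okN s = true) → get (iter (1 <<< (64 * encF ρ.1)) t) s = 0) ∧
    ∀ τ : Col P4 7, (get (iter (1 <<< (64 * encF ρ.1)) t) (encF τ.1) : ℝ)
      = 28 ^ t * (glauber P4 7 ^ t) τ ρ := by
  induction t with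
  | zero =>
    have e : ∀ s, get (iter (1 <<< (64 * encF ρ.1)) 0) s = if s = encF ρ.1 then 1 else 0 := by
      intro s
      change get (1 <<< (64 * encF ρ.1)) s = _
      rw [get_shl]
      split_ifs with h1 h2 h2
      · omega
      · rfl
      · simp [h2, get]
      · obtain ⟨k, hk⟩ : ∃ k, s - encF ρ.1 = k + 1 := ⟨s - encF ρ.1 - 1, by omega⟩
        rw [hk, ← get_shr, Nat.shiftRight_eq_div_pow]
        simp [get]
    refine ⟨fun s => ?_, fun s hs => ?_, fun τ => ?_⟩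
    · rw [e]; split_ifs <;> simp
    · rw [e, if_neg]
      rintro rfl
      exact hs ⟨encF_lt _, (okN_enc _).mpr ((proper_iff _).mp ρ.2)⟩
    · rw [e, pow_zero, pow_zero, Matrix.one_apply, one_mul]
      by_cases h : τ = ρ
      · simp [h]
      · rw [if_neg h, if_neg fun e => h (Subtype.ext (encF_inj e))]; simp
  | succ t ih =>
    obtain ⟨h1, h2, h3⟩ := ih (by omega)
    have hX : 202 * 202 ^ t < 2 ^ 64 := by
      have : 202 ^ t ≤ 202 ^ 7 := Nat.pow_le_pow_right (by norm_num) (by omega)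
      omega
    obtain ⟨k1, k2⟩ := get_step _ _ h1 hX
    set T := iter (1 <<< (64 * encF ρ.1)) t with hT
    rw [iter_succ, ← hT]
    refine ⟨by rwa [pow_succ'], fun s hs => ?_, fun τ => ?_⟩
    · rw [k2, if_neg hs, h2 s hs]; simp
    · obtain ⟨d0, d1, d2, d3⟩ := encF_dig τ.1
      obtain ⟨p1, p2, p3⟩ := (proper_iff _).mp τ.2
      have hlt := encF_lt τ.1
      have hb : ∀ v c, 28 ^ t * (glauber P4 7 ^ t) (move τ v c) ρ
          = get T (encF (Function.update τ.1 v c)) + if okN (encF (Function.update τ.1 v c)) = true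
            then (0 : ℝ) else get T (encF τ.1) := by
        intro v c
        by_cases h : okN (encF (Function.update τ.1 v c)) = true
        · rw [if_pos h, move_val τ v c _ rfl ((okN_enc _).mp h), ← h3, add_zero]
        · rw [if_neg h, h2 _ fun e => h e.2, h3]
          unfold move
          rw [dif_neg fun e => h ((okN_enc _).mpr ((proper_iff _).mp e))]
          simp
      have hw : 28 ^ (t + 1) * (glauber P4 7 ^ (t + 1)) τ ρ
          = ∑ v, ∑ c, 28 ^ t * (glauber P4 7 ^ t) (move τ v c) ρ := by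
        rw [pow_back]
        simp only [← Finset.mul_sum, Fintype.card_fin]
        push_cast
        rw [pow_succ]; field_simp; ring
      rw [hw, k2, if_pos ⟨hlt, (okN_enc _).mpr ⟨p1, p2, p3⟩⟩, Nat.div_one, d0, d1, d2, d3]
      simp only [hb, Finset.sum_add_distrib, Fin.sum_univ_four, okN_enc]
      have e0 : ∀ c : Fin 7, encF (Function.update τ.1 0 c) = encF τ.1 - τ.1 0 * 1 + c * 1 := by
        intro c; simp [encF]; omega
      have e1 : ∀ c : Fin 7, encF (Function.update τ.1 1 c) = encF τ.1 - τ.1 1 * 7 + c * 7 := by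
        intro c; simp [encF]; omega
      have e2 : ∀ c : Fin 7, encF (Function.update τ.1 2 c) = encF τ.1 - τ.1 2 * 49 + c * 49 := by
        intro c; simp [encF]; omega
      have e3 : ∀ c : Fin 7, encF (Function.update τ.1 3 c) = encF τ.1 - τ.1 3 * 343 + c * 343 := by
        intro c; simp [encF]; omega
      simp only [e0, e1, e2, e3, Finset.sum_range]
      have c0 := cnt2 (τ.1 1) (τ.1 1) (get T (encF τ.1))
      have c1 := cnt2 (τ.1 0) (τ.1 2) (get T (encF τ.1))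
      have c2 := cnt2 (τ.1 1) (τ.1 3) (get T (encF τ.1))
      have c3 := cnt2 (τ.1 2) (τ.1 2) (get T (encF τ.1))
      simp [p1, p2, p3, hlt, ne_comm] at c0 c1 c2 c3 ⊢
      linarith

theorem chk_tv (ρ : Col P4 7) (h : chk (encF ρ.1) = true) : 1 / 2 * tv P4 7 8 ρ ≤ 0.367 := by
  obtain ⟨-, -, h3⟩ := link ρ 8 le_rfl
  rw [chk, force_eq, Nat.ble_eq, dev, sumN_eq, ← sum_enc] at h
  set T := iter (1 <<< (64 * encF ρ.1)) 8
  have h1 : ∀ τ : Col P4 7, |(glauber P4 7 ^ 8) ρ τ - 1 / Fintype.card (Col P4 7)|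
      = (((1512 * get T (encF τ.1) - 377801998336) + (377801998336 - 1512 * get T (encF τ.1)) : ℕ) : ℝ)
        / (1512 * 377801998336) := by
    intro τ
    have e : (glauber P4 7 ^ 8) ρ τ = get T (encF τ.1) / 377801998336 := by
      rw [h3, pow_symm]; norm_num
    rw [e, card7, eq_div_iff (by norm_num)]
    rcases le_total (1512 * get T (encF τ.1)) 377801998336 with hh | hh
    · rw [Nat.sub_eq_zero_of_le hh, zero_add, Nat.cast_sub hh]
      have : (1512 * get T (encF τ.1) : ℝ) ≤ 377801998336 := by exact_mod_cast hh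
      rw [abs_of_nonpos (by push_cast; linarith)]
      push_cast; ring
    · rw [Nat.sub_eq_zero_of_le hh, add_zero, Nat.cast_sub hh]
      have : (377801998336 : ℝ) ≤ 1512 * get T (encF τ.1) := by exact_mod_cast hh
      rw [abs_of_nonneg (by push_cast; linarith)]
      push_cast; ring
  unfold tv
  simp only [h1]
  rw [← Finset.sum_div, ← Nat.cast_sum]
  have h2 := (Nat.cast_le (α := ℝ)).mpr h
  rw [Nat.cast_mul] at h2
  push_cast at h2 ⊢
  linarith

theorem mixed7 : Mixed P4 7 8 := by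
  intro σ
  obtain ⟨p1, p2, p3⟩ := (proper_iff _).mp σ.2
  have key : ∀ ρ : Col P4 7, chk (encF ρ.1) = true → (∀ u v, σ.1 u = σ.1 v ↔ ρ.1 u = ρ.1 v) →
      1 / 2 * tv P4 7 8 σ ≤ Real.exp (-1) := by
    intro ρ h1 h2
    obtain ⟨g, hg⟩ := exists_perm _ _ h2
    have : σ = perm g ρ := Subtype.ext hg.symm
    rw [this, tv_perm]
    exact (chk_tv ρ h1).trans exp_bd.1.le
  by_cases a : σ.1 0 = σ.1 2
  · by_cases b : σ.1 1 = σ.1 3
    · refine key ⟨![0, 1, 0, 1], (proper_iff _).mpr (by decide)⟩ c1 fun u v => ?_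
      fin_cases u <;> fin_cases v <;> simp <;> grind
    · refine key ⟨![0, 1, 0, 2], (proper_iff _).mpr (by decide)⟩ c2 fun u v => ?_
      fin_cases u <;> fin_cases v <;> simp <;> grind
  · by_cases b : σ.1 0 = σ.1 3
    · refine key ⟨![0, 1, 2, 0], (proper_iff _).mpr (by decide)⟩ c3 fun u v => ?_
      fin_cases u <;> fin_cases v <;> simp <;> grind
    · by_cases c : σ.1 1 = σ.1 3
      · refine key ⟨![0, 1, 2, 1], (proper_iff _).mpr (by decide)⟩ c4 fun u v => ?_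
        fin_cases u <;> fin_cases v <;> simp <;> grind
      · refine key ⟨![0, 1, 2, 3], (proper_iff _).mpr (by decide)⟩ c5 fun u v => ?_
        fin_cases u <;> fin_cases v <;> simp <;> grind

theorem main : ∃ q s t : ℕ, 7 ≤ q ∧ IsLeast {n | Mixed P4 q n} s ∧
    IsLeast {n | Mixed P4 (q + 1) n} t ∧ s < t := by
  have hl : ∀ q, 5 ≤ q → IsLeast {n | Mixed P4 q n} (sInf {n | Mixed P4 q n}) :=
    fun q hq => ⟨Nat.sInf_mem (mixes hq), fun _ h => Nat.sInf_le h⟩
  by_contra hc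
  have : ∀ k, sInf {n | Mixed P4 (7 + k) n} ≤ 8 := by
    intro k
    induction k with
    | zero => exact Nat.sInf_le mixed7
    | succ k ih =>
      refine le_trans (not_lt.mp fun h => hc ⟨7 + k, _, _, by omega, hl _ (by omega),
        hl _ (by omega), h⟩) ih
  exact not_mixed 500 le_rfl _ (Nat.lt_succ_of_le (this 493)) (hl 500 (by norm_num)).1

end Pool.Agent.H.MP_a221c1_pr
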